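import Pool.Agent.H37.UM.Stmts

set_option autoImplicit false

namespace Pool.Agent.H37.UM

open PowerSeries Finset

namespace CB

theorem cubic (u B : ℝ) (hu : 0 ≤ u) (hB : 0 < B) : u * (B ^ 2 - u ^ 2) ≤ 0.385 * B ^ 3 := by
  have h1 : 0 ≤ (u - 0.57736 * B) ^ 2 * (u + 2 * 0.57736 * B) :=
    mul_nonneg (sq_nonneg _) (by positivity)
  have h2 : 0 ≤ u * B ^ 2 := by positivity
  have h3 : 0 ≤ B ^ 3 := by positivity
  nlinarith

/-- odd moments about the centre vanish -/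
theorem odd_moment {D : ℕ} {v : ℤ⟦X⟧} (hv : Sym D v) (n : ℕ) (hn : Odd n) :
    ∑ i ∈ range (D + 1), ((coeff i v : ℤ) : ℝ) * (2 * (i : ℝ) - D) ^ n = 0 := by
  have h := Finset.sum_range_reflect (fun i => ((coeff i v : ℤ) : ℝ) * (2 * (i : ℝ) - D) ^ n) (D + 1)
  have h2 : ∑ j ∈ range (D + 1), ((coeff (D + 1 - 1 - j) v : ℤ) : ℝ) *
      (2 * ((D + 1 - 1 - j : ℕ) : ℝ) - D) ^ n =
      ∑ i ∈ range (D + 1), -(((coeff i v : ℤ) : ℝ) * (2 * (i : ℝ) - D) ^ n) := by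
    refine Finset.sum_congr rfl ?_
    intro i hi
    have hi' : i ≤ D := by
      have := Finset.mem_range.1 hi
      omega
    have e1 : D + 1 - 1 - i = D - i := by omega
    rw [e1, hv.sym i hi', Nat.cast_sub hi']
    have e2 : (2 * ((D : ℝ) - i) - D) = -(2 * (i : ℝ) - D) := by ring
    rw [e2, hn.neg_pow]
    ring
  rw [h2, Finset.sum_neg_distrib] at h
  linarith

end CB

open CB in
theorem CB_thm (hSTEP : STEPStmt) (hSTR : STRStmt) (hTSU : TSUStmt) (hMOA : MOAStmt)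
    (hMOB : MOBStmt) (hVA : VAStmt) (hUU : UUStmt) : CBStmt := by
  intro t N k B x ht hN hB hB2 hk hx
  obtain ⟨hsu, hstrict⟩ := hSTR t N ht hN
  set M := N - 6 * t with hM
  have hv := hTSU M (by omega)
  obtain ⟨-, -, -, -, hmul, hadd, hev⟩ := hUU
  obtain ⟨c, hc⟩ := hev M N
  have hc' : dU M N = 2 * c := by omega
  have e1 : U M N * T M = T N := hmul 0 M N (by omega) (by omega)
  have e2 : dU M N + dg M = dg N := hadd 0 M N (by omega) (by omega)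
  rw [hc'] at hsu hstrict e2 hB2
  set D := dg M with hD
  have hB3 : 0 < 0.385 * B ^ 3 := by positivity
  set L : ℤ → ℝ := fun j => (2 * (c : ℝ) + 1 - 2 * j) * (B ^ 2 - (2 * (c : ℝ) + 1 - 2 * j) ^ 2) /
    (0.385 * B ^ 3) with hL
  have key := hSTEP c D k (U M N) (T M) L hsu hv (by omega) ?_ ?_ ?_
  · rw [e1] at key
    refine le_trans (le_of_eq ?_) key
    -- moments
    have m0 : ∑ i ∈ range (D + 1), ((coeff i (T M) : ℤ) : ℝ) = (M.factorial : ℝ) := by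
      have h := hMOA.1 M 1
      rw [hMOA.2.2.1 M] at h
      rw [h]
      refine Finset.sum_congr rfl ?_
      intro i _
      rw [one_pow, mul_one]
    have hf : (0 : ℝ) < (M.factorial : ℝ) := by exact_mod_cast M.factorial_pos
    have m1 := odd_moment hv.toSym 1 (by decide)
    have m3 := odd_moment hv.toSym 3 (by decide)
    have hmu : mu M 1 = (D : ℝ) / 2 := hMOB.1 M
    have m2' : ∑ i ∈ range (D + 1), (i : ℝ) ^ 2 * ((coeff i (T M) : ℤ) : ℝ) =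
        (M.factorial : ℝ) * (sg M + ((D : ℝ) / 2) ^ 2) := by
      have h := hVA.2.2 M
      unfold va at h
      rw [hMOA.2.2.1 M, hmu] at h
      have h' : (∑ i ∈ range (D + 1), (i : ℝ) ^ 2 * (((coeff i (T M) : ℤ) : ℝ) * 1 ^ i)) /
          (M.factorial : ℝ) = sg M + ((D : ℝ) / 2) ^ 2 := by
        linarith
      rw [div_eq_iff hf.ne'] at h'
      rw [mul_comm, ← h']
      refine Finset.sum_congr rfl ?_
      intro i _
      rw [one_pow, mul_one]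
    have m1' : ∑ i ∈ range (D + 1), (i : ℝ) * ((coeff i (T M) : ℤ) : ℝ) =
        (M.factorial : ℝ) * ((D : ℝ) / 2) := by
      have h : ∑ i ∈ range (D + 1), ((coeff i (T M) : ℤ) : ℝ) * (2 * (i : ℝ) - D) ^ 1 =
          2 * (∑ i ∈ range (D + 1), (i : ℝ) * ((coeff i (T M) : ℤ) : ℝ)) -
            D * ∑ i ∈ range (D + 1), ((coeff i (T M) : ℤ) : ℝ) := by
        rw [Finset.mul_sum, Finset.mul_sum, ← Finset.sum_sub_distrib]
        refine Finset.sum_congr rfl ?_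
        intro i _
        ring
      rw [m1, m0] at h
      linarith
    have hsum : ∑ i ∈ range (D + 1), ((coeff i (T M) : ℤ) : ℝ) * L ((k : ℤ) - i) =
        (∑ i ∈ range (D + 1), (((coeff i (T M) : ℤ) : ℝ) * (x * (B ^ 2 - x ^ 2)) +
          (((coeff i (T M) : ℤ) : ℝ) * (2 * (i : ℝ) - D) ^ 1) * (B ^ 2 - 3 * x ^ 2) -
          (4 * ((i : ℝ) ^ 2 * ((coeff i (T M) : ℤ) : ℝ)) - 4 * D * ((i : ℝ) * ((coeff i (T M) : ℤ) : ℝ)) +
            D ^ 2 * ((coeff i (T M) : ℤ) : ℝ)) * (3 * x) -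
          ((coeff i (T M) : ℤ) : ℝ) * (2 * (i : ℝ) - D) ^ 3)) / (0.385 * B ^ 3) := by
      rw [Finset.sum_div]
      refine Finset.sum_congr rfl ?_
      intro i _
      have hu : 2 * (c : ℝ) + 1 - 2 * (((k : ℤ) - (i : ℤ) : ℤ) : ℝ) = x + (2 * (i : ℝ) - D) := by
        rw [hx, ← e2]
        push_cast
        ring
      rw [hL]
      show _ * ((2 * (c : ℝ) + 1 - 2 * (((k : ℤ) - (i : ℤ) : ℤ) : ℝ)) *
        (B ^ 2 - (2 * (c : ℝ) + 1 - 2 * (((k : ℤ) - (i : ℤ) : ℤ) : ℝ)) ^ 2) / (0.385 * B ^ 3)) = _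
      rw [hu, mul_div_assoc']
      congr 1
      ring
    rw [hsum, mul_div_assoc']
    congr 1
    rw [Finset.sum_sub_distrib, Finset.sum_sub_distrib, Finset.sum_add_distrib, ← Finset.sum_mul,
      ← Finset.sum_mul, ← Finset.sum_mul, Finset.sum_add_distrib, Finset.sum_sub_distrib,
      ← Finset.mul_sum, ← Finset.mul_sum, ← Finset.mul_sum, m0, m1, m3, m2', m1']
    ring
  · intro j hj
    have h1 : (1 : ℤ) ≤ df (U M N) j := hstrict j (by omega)
    have h1' : (1 : ℝ) ≤ ((df (U M N) j : ℤ) : ℝ) := by exact_mod_cast h1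
    refine le_trans ?_ h1'
    rw [hL]
    show (2 * (c : ℝ) + 1 - 2 * ((j : ℤ) : ℝ)) * (B ^ 2 - (2 * (c : ℝ) + 1 - 2 * ((j : ℤ) : ℝ)) ^ 2) /
      (0.385 * B ^ 3) ≤ 1
    rw [div_le_one hB3]
    refine cubic _ _ ?_ hB
    have : (j : ℝ) ≤ c := by exact_mod_cast hj
    push_cast
    linarith
  · intro j hj
    rw [hL]
    show (2 * (c : ℝ) + 1 - 2 * (j : ℝ)) * (B ^ 2 - (2 * (c : ℝ) + 1 - 2 * (j : ℝ)) ^ 2) /
      (0.385 * B ^ 3) ≤ 0
    have hj' : (j : ℝ) ≤ -1 := by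
      have : j ≤ -1 := by omega
      exact_mod_cast this
    have hc0 : (0 : ℝ) ≤ c := Nat.cast_nonneg c
    have hBc : B ≤ 2 * (c : ℝ) + 2 := by
      have := hB2
      push_cast at this
      exact this
    apply div_nonpos_of_nonpos_of_nonneg _ hB3.le
    have hu : B ≤ 2 * (c : ℝ) + 1 - 2 * (j : ℝ) := by linarith
    have : B ^ 2 - (2 * (c : ℝ) + 1 - 2 * (j : ℝ)) ^ 2 ≤ 0 := by nlinarith
    exact mul_nonpos_of_nonneg_of_nonpos (by linarith) this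
  · intro j
    rw [hL]
    show (2 * (c : ℝ) + 1 - 2 * (j : ℝ)) * (B ^ 2 - (2 * (c : ℝ) + 1 - 2 * (j : ℝ)) ^ 2) /
      (0.385 * B ^ 3) + (2 * (c : ℝ) + 1 - 2 * ((2 * c + 1 - j : ℤ) : ℝ)) *
        (B ^ 2 - (2 * (c : ℝ) + 1 - 2 * ((2 * c + 1 - j : ℤ) : ℝ)) ^ 2) / (0.385 * B ^ 3) ≤ 0
    rw [← add_div]
    apply le_of_eq
    rw [div_eq_zero_iff]
    left
    push_cast
    ring

end Pool.Agent.H37.UM
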