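import Pool.Agent.H37.UM.Stmts

set_option autoImplicit false

namespace Pool.Agent.H37.UM

open PowerSeries Finset

namespace STR

theorem df_add (f g : ℤ⟦X⟧) (k : ℕ) : df (f + g) k = df f k + df g k := by
  simp [df, mul_add]

theorem df_sub (f g : ℤ⟦X⟧) (k : ℕ) : df (f - g) k = df f k - df g k := by
  simp [df, mul_sub]

theorem one_sub_mul_iv (n : ℕ) : (1 - X) * iv n = 1 - X ^ n := mul_neg_geom_sum X n

theorem coeff_iv (n k : ℕ) : coeff k (iv n) = if k < n then (1 : ℤ) else 0 := by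
  unfold iv
  rw [map_sum]
  simp only [PowerSeries.coeff_X_pow]
  rw [Finset.sum_ite_eq (range n) k]
  simp only [mem_range]

theorem df_X_iv (l n k : ℕ) : df (X ^ l * iv n) k =
    (if k = l then (1 : ℤ) else 0) - if k = l + n then 1 else 0 := by
  have : (1 - X) * (X ^ l * iv n) = X ^ l - (X : ℤ⟦X⟧) ^ (l + n) := by
    have h := one_sub_mul_iv n
    calc (1 - X) * (X ^ l * iv n) = X ^ l * ((1 - X) * iv n) := by ring
      _ = _ := by rw [h, mul_sub, mul_one, pow_add]
  rw [df, this, map_sub, PowerSeries.coeff_X_pow, PowerSeries.coeff_X_pow]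

theorem sub_su (hSUM : SUMStmt) {D l : ℕ} {W : ℤ⟦X⟧} (hW : SU D W) (hl : 2 * l ≤ D)
    (h1 : 1 ≤ df W l) : SU D (W - X ^ l * iv (D - 2 * l + 1)) := by
  obtain ⟨-, -, hiv, hX, -, -⟩ := hSUM
  have hS : SU D (X ^ l * iv (D - 2 * l + 1)) := by
    have := hX (D - 2 * l) l _ (hiv (D - 2 * l))
    have e : D - 2 * l + 2 * l = D := by omega
    rwa [e] at this
  refine ⟨⟨?_, ?_⟩, ?_⟩
  · intro k hk
    rw [map_sub, hW.top k hk, hS.top k hk, sub_zero]
  · intro k hk
    rw [map_sub, map_sub, hW.sym k hk, hS.sym k hk]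
  · intro k hk
    rw [df_sub, df_X_iv]
    have h0 := hW.mono k hk
    have e2 : ¬ k = l + (D - 2 * l + 1) := by omega
    rw [if_neg e2, sub_zero]
    by_cases h : k = l
    · rw [if_pos h, h]
      linarith
    · rw [if_neg h]
      linarith

theorem strict_mul (hSUM : SUMStmt) {a b : ℕ} {V W : ℤ⟦X⟧} (hV : SU (2 * a) V) (hW : SU (2 * b) W)
    (hab : a ≤ b) (hV0 : 1 ≤ df V 0) (hW1 : ∀ l, l ≤ b - a → 1 ≤ df W l) :
    ∀ k, k ≤ a + b → 1 ≤ df (V * W) k := by
  intro k hk
  have hl : k - 2 * a ≤ b - a := by omega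
  obtain ⟨l, hl'⟩ : ∃ l, l = k - 2 * a := ⟨_, rfl⟩
  rw [← hl'] at hl
  have hV' := sub_su hSUM hV (l := 0) (by omega) hV0
  have hW' := sub_su hSUM hW (l := l) (by omega) (hW1 l hl)
  obtain ⟨hmul, -, hiv, hX, -, -⟩ := hSUM
  have hS : SU (2 * b) (X ^ l * iv (2 * b - 2 * l + 1)) := by
    have := hX (2 * b - 2 * l) l _ (hiv (2 * b - 2 * l))
    have e : 2 * b - 2 * l + 2 * l = 2 * b := by omega
    rwa [e] at this
  set V' := V - X ^ 0 * iv (2 * a - 2 * 0 + 1) with hVd
  set W' := W - X ^ l * iv (2 * b - 2 * l + 1) with hWd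
  have e : V * W = iv (2 * a + 1) * (X ^ l * iv (2 * b - 2 * l + 1)) +
      (V' * (X ^ l * iv (2 * b - 2 * l + 1)) + V * W') := by
    rw [hVd, hWd]
    have : 2 * a - 2 * 0 + 1 = 2 * a + 1 := by omega
    rw [this]
    ring
  have h1 := (hmul _ _ _ _ hV' hS).mono k (by omega)
  have h2 := (hmul _ _ _ _ hV hW').mono k (by omega)
  have h3 : df (iv (2 * a + 1) * (X ^ l * iv (2 * b - 2 * l + 1))) k = 1 := by
    have e2 : (1 - X) * (iv (2 * a + 1) * (X ^ l * iv (2 * b - 2 * l + 1))) =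
        X ^ l * iv (2 * b - 2 * l + 1) - X ^ (2 * a + 1 + l) * iv (2 * b - 2 * l + 1) := by
      calc (1 - X) * (iv (2 * a + 1) * (X ^ l * iv (2 * b - 2 * l + 1))) =
          ((1 - X) * iv (2 * a + 1)) * (X ^ l * iv (2 * b - 2 * l + 1)) := by ring
        _ = _ := by rw [one_sub_mul_iv]; ring
    rw [df, e2, map_sub, PowerSeries.coeff_X_pow_mul', PowerSeries.coeff_X_pow_mul',
      if_pos (by omega), if_neg (by omega), coeff_iv, if_pos (by omega), sub_zero]
  rw [e, df_add, df_add, h3]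
  linarith

/-! ### facts on `op`, `F` -/

theorem op_odd (hOP : OPStmt) {m : ℕ} (h : m % 2 = 1) : op m = m := by
  have := hOP.2.2 (m / 2)
  have e : 2 * (m / 2) + 1 = m := by omega
  rwa [e] at this

theorem op_even (hOP : OPStmt) {m : ℕ} (h : m % 2 = 0) (h1 : 1 ≤ m) : op m = op (m / 2) := by
  have := hOP.2.1 (m / 2) (by omega)
  have e : 2 * (m / 2) = m := by omega
  rwa [e] at this

theorem op_pos (hOP : OPStmt) {m : ℕ} (h1 : 1 ≤ m) : 1 ≤ op m ∧ op m ≤ m :=
  ⟨(hOP.1 m h1).2.1, (hOP.1 m h1).2.2.1⟩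

theorem op_half (hOP : OPStmt) {m : ℕ} (h : m % 2 = 0) (h1 : 1 ≤ m) :
    1 ≤ op m ∧ op m ≤ m / 2 := by
  rw [op_even hOP h h1]
  exact op_pos hOP (by omega)

theorem F_nonneg (hFF : FFStmt) {m : ℕ} (h : 1 ≤ m) (j : ℕ) : 0 ≤ coeff j (F m) := by
  rw [hFF.1 m h]
  split_ifs <;> norm_num

theorem F_odd (hOP : OPStmt) (hFF : FFStmt) {m : ℕ} (h : m % 2 = 1) : F m = iv m := by
  ext j
  rw [hFF.1 m (by omega), coeff_iv, op_odd hOP h]
  by_cases hj : j < m
  · rw [if_pos hj, if_pos]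
    refine ⟨by omega, ?_⟩
    rw [Nat.mod_eq_of_lt (by omega)]
    exact hj
  · rw [if_neg hj, if_neg]
    rintro ⟨h1, h2⟩
    rw [Nat.mod_eq_of_lt h1] at h2
    exact hj h2

theorem coeff_mul_ge {f g : ℤ⟦X⟧} (hf : ∀ k, 0 ≤ coeff k f) (hg : ∀ k, 0 ≤ coeff k g) {k i j : ℕ}
    (hij : i + j = k) (hi : 1 ≤ coeff i f) (hj : 1 ≤ coeff j g) : 1 ≤ coeff k (f * g) := by
  rw [PowerSeries.coeff_mul]
  have hm : (i, j) ∈ antidiagonal k := mem_antidiagonal.2 hij
  refine le_trans ?_ (Finset.single_le_sum (f := fun p : ℕ × ℕ => coeff p.1 f * coeff p.2 g)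
    (fun p _ => mul_nonneg (hf _) (hg _)) hm)
  show 1 ≤ coeff i f * coeff j g
  nlinarith

theorem U_three (M : ℕ) : U M (M + 3) = F (M + 1) * F (M + 2) * F (M + 3) := by
  unfold U
  rw [show M + 3 = M + 2 + 1 from rfl, Finset.prod_Ioc_succ_top (by omega),
    show M + 2 = M + 1 + 1 from rfl, Finset.prod_Ioc_succ_top (by omega),
    Finset.prod_Ioc_succ_top (by omega), Finset.Ioc_self, Finset.prod_empty, one_mul]

theorem dU_three (M : ℕ) : dU M (M + 3) = (2 * (M + 1) - op (M + 1) - 1) +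
    (2 * (M + 2) - op (M + 2) - 1) + (2 * (M + 3) - op (M + 3) - 1) := by
  unfold dU
  rw [show M + 3 = M + 2 + 1 from rfl, Finset.sum_Ioc_succ_top (by omega),
    show M + 2 = M + 1 + 1 from rfl, Finset.sum_Ioc_succ_top (by omega),
    Finset.sum_Ioc_succ_top (by omega), Finset.Ioc_self, Finset.sum_empty, zero_add]

/-- if an odd factor splits off -/
theorem df_split (hOP : OPStmt) (hFF : FFStmt) {o k : ℕ} {G : ℤ⟦X⟧} (ho : o % 2 = 1) (hk : k < o)
    (hG : 1 ≤ coeff k G) : 1 ≤ df (F o * G) k := by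
  rw [F_odd hOP hFF ho]
  have e : (1 - X) * (iv o * G) = G - X ^ o * G := by
    calc (1 - X) * (iv o * G) = ((1 - X) * iv o) * G := by ring
      _ = _ := by rw [one_sub_mul_iv]; ring
  rw [df, e, map_sub, PowerSeries.coeff_X_pow_mul', if_neg (by omega), sub_zero]
  exact hG

theorem coeff_F_low (hOP : OPStmt) (hFF : FFStmt) {m i : ℕ} (hm : 1 ≤ m) (hi : i < op m) :
    coeff i (F m) = 1 := by
  have h2 := (op_pos hOP hm).2
  rw [hFF.1 m hm, if_pos]
  refine ⟨by omega, ?_⟩
  rw [Nat.mod_eq_of_lt (by omega)]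
  exact hi

/-- the product of the factors of two even indices of different type -/
theorem G_even (hOP : OPStmt) (hFF : FFStmt) {a b k : ℕ} (ha : a % 4 = 2) (hb : b % 4 = 0)
    (hb1 : 1 ≤ b) (hab : b ≤ a + 2) (ha8 : 6 ≤ a) (hk : k < 2 * b) :
    1 ≤ coeff k (F a * F b) := by
  have hopa : op a = a / 2 := by
    rw [op_even hOP (by omega) (by omega), op_odd hOP (by omega)]
  have hopb : op b ≤ b / 4 := by
    rw [op_even hOP (by omega) (by omega), op_even hOP (by omega) (by omega)]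
    have := (op_pos hOP (m := b / 2 / 2) (by omega)).2
    omega
  have hopb1 := (op_pos hOP (m := b) hb1).1
  by_cases hr : k % (2 * op b) < op b
  · refine coeff_mul_ge (F_nonneg hFF (by omega)) (F_nonneg hFF hb1) (i := 0) (j := k) (by omega) ?_ ?_
    · rw [coeff_F_low hOP hFF (by omega) (by omega)]
    · rw [hFF.1 b hb1, if_pos ⟨hk, hr⟩]
  · have hlt : k % (2 * op b) < 2 * op b := Nat.mod_lt _ (by omega)
    have hdm := Nat.div_add_mod k (2 * op b)
    set q := k / (2 * op b) with hq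
    set r := k % (2 * op b) with hrr
    refine coeff_mul_ge (F_nonneg hFF (by omega)) (F_nonneg hFF hb1) (i := r - op b + 1)
      (j := 2 * op b * q + (op b - 1)) (by omega) ?_ ?_
    · rw [coeff_F_low hOP hFF (by omega) (by omega)]
    · rw [hFF.1 b hb1, if_pos]
      refine ⟨by omega, ?_⟩
      rw [Nat.mul_add_mod, Nat.mod_eq_of_lt (by omega)]
      omega

theorem block_strict (hOP : OPStmt) (hFF : FFStmt) {M k : ℕ} (hM : 6 ≤ M) (hk : k ≤ M) :
    1 ≤ df (U M (M + 3)) k := by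
  rw [U_three]
  rcases Nat.mod_two_eq_zero_or_one M with h | h
  · have e : F (M + 1) * F (M + 2) * F (M + 3) = F (M + 3) * (F (M + 1) * F (M + 2)) := by ring
    rw [e]
    refine df_split hOP hFF (by omega) (by omega) ?_
    refine coeff_mul_ge (F_nonneg hFF (by omega)) (F_nonneg hFF (by omega)) (i := k) (j := 0)
      (by omega) ?_ ?_
    · rw [coeff_F_low hOP hFF (by omega)]
      rw [op_odd hOP (by omega)]
      omega
    · rw [coeff_F_low hOP hFF (by omega)]
      have := (op_pos hOP (m := M + 2) (by omega)).1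
      omega
  · have h4 : (M + 1) % 4 = 0 ∨ (M + 1) % 4 = 2 := by omega
    have e : F (M + 1) * F (M + 2) * F (M + 3) = F (M + 2) * (F (M + 1) * F (M + 3)) := by ring
    rw [e]
    refine df_split hOP hFF (by omega) (by omega) ?_
    rcases h4 with h4 | h4
    · rw [mul_comm]
      exact G_even hOP hFF (by omega) h4 (by omega) (by omega) (by omega) (by omega)
    · exact G_even hOP hFF h4 (by omega) (by omega) (by omega) (by omega) (by omega)

/-- strictness of two consecutive blocks, `M → M + 6` -/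
theorem six (hTB : TBStmt) (hSUM : SUMStmt) (hOP : OPStmt) (hFF : FFStmt) (hUU : UUStmt) {M : ℕ}
    (hM : 30 ≤ M) : SU (dU M (M + 6)) (U M (M + 6)) ∧
      ∀ k, 2 * k ≤ dU M (M + 6) → 1 ≤ df (U M (M + 6)) k := by
  have hA : SU (dU M (M + 3)) (U M (M + 3)) := hTB (M + 3) (by omega)
  have hB : SU (dU (M + 3) (M + 3 + 3)) (U (M + 3) (M + 3 + 3)) := hTB (M + 3 + 3) (by omega)
  obtain ⟨-, -, -, -, hmul, hadd, hev⟩ := hUU
  have e1 := hmul M (M + 3) (M + 3 + 3) (by omega) (by omega)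
  have e2 := hadd M (M + 3) (M + 3 + 3) (by omega) (by omega)
  obtain ⟨a, ha⟩ := (hev M (M + 3))
  obtain ⟨b, hb⟩ := (hev (M + 3) (M + 3 + 3))
  have ha' : dU M (M + 3) = 2 * a := by omega
  have hb' : dU (M + 3) (M + 3 + 3) = 2 * b := by omega
  have sA : ∀ l, l ≤ M → 1 ≤ df (U M (M + 3)) l := fun l hl => block_strict hOP hFF (by omega) hl
  have sB : ∀ l, l ≤ M + 3 → 1 ≤ df (U (M + 3) (M + 3 + 3)) l :=
    fun l hl => block_strict hOP hFF (by omega) hl
  -- degrees
  have dA := dU_three M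
  have dB := dU_three (M + 3)
  have hdeg : 2 * b ≤ 2 * a + (2 * M + 6) ∧ 2 * a ≤ 2 * b + 2 * M := by
    rw [ha'] at dA
    rw [hb'] at dB
    have e4 : M + 3 + 1 = M + 4 := rfl
    have e5 : M + 3 + 2 = M + 5 := rfl
    have e6 : M + 3 + 3 = M + 6 := rfl
    rw [e4, e5, e6] at dB
    rcases Nat.mod_two_eq_zero_or_one M with h | h
    · have o1 := op_odd hOP (m := M + 1) (by omega)
      have o3 := op_odd hOP (m := M + 3) (by omega)
      have o5 := op_odd hOP (m := M + 5) (by omega)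
      have o2 := op_half hOP (m := M + 2) (by omega) (by omega)
      have o4 := op_half hOP (m := M + 4) (by omega) (by omega)
      have o6 := op_half hOP (m := M + 6) (by omega) (by omega)
      omega
    · have o2 := op_odd hOP (m := M + 2) (by omega)
      have o4 := op_odd hOP (m := M + 4) (by omega)
      have o6 := op_odd hOP (m := M + 6) (by omega)
      have o1 := op_half hOP (m := M + 1) (by omega) (by omega)
      have o3 := op_half hOP (m := M + 3) (by omega) (by omega)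
      have o5 := op_half hOP (m := M + 5) (by omega) (by omega)
      omega
  have e6 : M + 3 + 3 = M + 6 := rfl
  rw [e6] at e1 e2 hb' sB hB
  rw [← e1, ← e2]
  refine ⟨hSUM.1 _ _ _ _ hB hA, ?_⟩
  intro k hk
  rw [ha', hb'] at hk
  rw [ha'] at hA
  rw [hb'] at hB
  rcases le_total a b with hab | hab
  · rw [mul_comm]
    exact strict_mul hSUM hA hB hab (sA 0 (by omega)) (fun l hl => sB l (by omega)) k (by omega)
  · exact strict_mul hSUM hB hA hab (sB 0 (by omega)) (fun l hl => sA l (by omega)) k (by omega)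

end STR

open STR in
theorem STR_thm (hTB : TBStmt) (hSUM : SUMStmt) (hOP : OPStmt) (hFF : FFStmt) (hUU : UUStmt) :
    STRStmt := by
  intro t N ht
  induction t, ht using Nat.le_induction generalizing N with
  | base =>
    intro hN
    have := six hTB hSUM hOP hFF hUU (M := N - 6) (by omega)
    have e : N - 6 + 6 = N := by omega
    rw [e] at this
    simpa using this
  | succ t ht ih =>
    intro hN
    have h1 := six hTB hSUM hOP hFF hUU (M := N - 6) (by omega)
    have e : N - 6 + 6 = N := by omega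
    rw [e] at h1
    have h2 := ih (N - 6) (by omega)
    have e3 : N - 6 - 6 * t = N - 6 * (t + 1) := by omega
    rw [e3] at h2
    obtain ⟨hA, sA⟩ := h2
    obtain ⟨hB, sB⟩ := h1
    obtain ⟨-, -, -, -, hmul, hadd, hev⟩ := hUU
    have e1 := hmul (N - 6 * (t + 1)) (N - 6) N (by omega) (by omega)
    have e2 := hadd (N - 6 * (t + 1)) (N - 6) N (by omega) (by omega)
    obtain ⟨a, ha⟩ := (hev (N - 6 * (t + 1)) (N - 6))
    obtain ⟨b, hb⟩ := (hev (N - 6) N)
    have ha' : dU (N - 6 * (t + 1)) (N - 6) = 2 * a := by omega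
    have hb' : dU (N - 6) N = 2 * b := by omega
    rw [← e1, ← e2]
    refine ⟨hSUM.1 _ _ _ _ hB hA, ?_⟩
    intro k hk
    rw [ha', hb'] at hk
    rw [ha'] at hA sA
    rw [hb'] at hB sB
    rcases le_total a b with hab | hab
    · rw [mul_comm]
      exact strict_mul hSUM hA hB hab (sA 0 (by omega)) (fun l hl => sB l (by omega)) k (by omega)
    · exact strict_mul hSUM hB hA hab (sB 0 (by omega)) (fun l hl => sA l (by omega)) k (by omega)

end Pool.Agent.H37.UM
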